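import Pool.Agent.Helper29.SH.Goals

/-!
# Project SH (MP_0a002a_al), packet OMG (helper44)
-/

set_option autoImplicit false

namespace Pool.Agent.Helper44.SH

open Subgroup Pool.H83Shunkov Pool.Agent.Helper29.SH

/-- conjugation by `a` is onto on a finite invariant subgroup -/
theorem inv_surj {M : Type} [Group M] {a : M} {R : Subgroup M} (hR : (R : Set M).Finite)
    (ha : Inv a R) : ∀ r ∈ R, ∃ r' ∈ R, r = a⁻¹ * r' * a := by
  have : Finite R := hR
  let f : R → R := fun r => ⟨a⁻¹ * r * a, ha r r.2⟩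
  have hf : Function.Injective f := by
    intro x y h
    have h1 : a⁻¹ * (x : M) * a = a⁻¹ * y * a := congrArg Subtype.val h
    exact Subtype.ext (mul_left_cancel (mul_right_cancel h1))
  intro r hr
  obtain ⟨x, hx⟩ := Finite.injective_iff_surjective.1 hf ⟨r, hr⟩
  exact ⟨x, x.2, (congrArg Subtype.val hx).symm⟩

/-- **OMG** -/
theorem t_OMG : S_OMG := by
  intro M _ a R q hq hfin ha hR hne
  let V : Subgroup M :=
    { carrier := {z | z ∈ R ∧ (∀ r ∈ R, z * r = r * z) ∧ z ^ q = 1}
      mul_mem' := by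
        rintro z w ⟨z1, z2, z3⟩ ⟨w1, w2, w3⟩
        refine ⟨R.mul_mem z1 w1, fun r hr => ?_, ?_⟩
        · rw [mul_assoc, w2 r hr, ← mul_assoc, z2 r hr, mul_assoc]
        · have hc : Commute z w := z2 w w1
          rw [hc.mul_pow, z3, w3, one_mul]
      one_mem' := ⟨R.one_mem, fun r _ => by rw [one_mul, mul_one], one_pow q⟩
      inv_mem' := by
        rintro z ⟨z1, z2, z3⟩
        refine ⟨R.inv_mem z1, fun r hr => ?_, ?_⟩
        · have hc : Commute z r := z2 r hr
          exact hc.inv_left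
        · rw [inv_pow, z3, inv_one] }
  have hV : ∀ z, z ∈ V ↔ z ∈ R ∧ (∀ r ∈ R, z * r = r * z) ∧ z ^ q = 1 := fun z => Iff.rfl
  refine ⟨V, fun z hz => hz.1, ?_, ?_, fun v hv => hv.2.2, fun v hv w hw => hv.2.1 w hw.1⟩
  · have hfR : Finite R := hfin
    have : Nontrivial R := (Subgroup.nontrivial_iff_ne_bot R).2 hne
    have : Fact q.Prime := ⟨hq⟩
    have hnt : Nontrivial (Subgroup.center R) := hR.center_nontrivial
    obtain ⟨c, hc⟩ := exists_ne (1 : Subgroup.center R)
    have hc1 : ((c : R) : M) ≠ 1 := by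
      intro h
      apply hc
      exact Subtype.ext (Subtype.ext h)
    have hcomm : ∀ r ∈ R, ((c : R) : M) * r = r * ((c : R) : M) := by
      intro r hr
      have := Subgroup.mem_center_iff.1 c.2 ⟨r, hr⟩
      exact (congrArg Subtype.val this).symm
    have hex : ∃ n : ℕ, ((c : R) : M) ^ q ^ n = 1 := by
      obtain ⟨n, hn⟩ := hR (c : R)
      exact ⟨n, by have := congrArg Subtype.val hn; simpa using this⟩
    classical
    obtain ⟨n, hn⟩ : ∃ n, Nat.find hex = n := ⟨_, rfl⟩
    have h1 := Nat.find_spec hex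
    rw [hn] at h1
    rcases n with _ | n
    · rw [pow_zero, pow_one] at h1
      exact absurd h1 hc1
    · have h2 : ((c : R) : M) ^ q ^ n ≠ 1 := by
        intro h
        have := Nat.find_min' hex h
        omega
      intro hbot
      apply h2
      have h3 : ((c : R) : M) ^ q ^ n ∈ V := by
        refine ⟨R.pow_mem (c : R).2 _, fun r hr => ?_, ?_⟩
        · have hcr : Commute ((c : R) : M) r := hcomm r hr
          exact hcr.pow_left _
        · rw [← pow_mul, ← pow_succ, h1]
      rw [hbot, Subgroup.mem_bot] at h3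
      exact h3
  · rintro z ⟨z1, z2, z3⟩
    refine ⟨ha z z1, fun r hr => ?_, ?_⟩
    · obtain ⟨r', hr', rfl⟩ := inv_surj hfin ha r hr
      calc a⁻¹ * z * a * (a⁻¹ * r' * a) = a⁻¹ * (z * r') * a := by group
        _ = a⁻¹ * (r' * z) * a := by rw [z2 r' hr']
        _ = a⁻¹ * r' * a * (a⁻¹ * z * a) := by group
    · have := conj_pow (i := q) (a := a⁻¹) (b := z)
      rw [inv_inv] at this
      rw [this, z3, mul_one, inv_mul_cancel]

end Pool.Agent.Helper44.SH
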